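import Pool.Agent.Q99.CT.Basic

/-!
# Higher character congruences fail for `PSL(2, q)`, `q` congruent to `3` or `5` modulo `8`
-/

set_option autoImplicit false
set_option linter.style.haveILetI false

open Matrix
open scoped MatrixGroups

namespace Pool.Agent.Results.MP_cfb286_al.ProjectiveLine

/-- The relation `∼_m` of the group `G` for the prime `p`: the smallest equivalence relation with
`g ∼ x g x⁻¹` for all `x` and `g ∼ g h ^ (p ^ (m - 1))` for all `h` of `p`-power order that commute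
with `g`. -/
def Sim {G : Type} [Group G] (p m : ℕ) : G → G → Prop :=
  Relation.EqvGen fun g g' => (∃ x : G, g' = x * g * x⁻¹) ∨
    ∃ h : G, h * g = g * h ∧ (∃ k : ℕ, orderOf h = p ^ k) ∧ g' = g * h ^ p ^ (m - 1)

section general

variable {G : Type} [Group G]

/-- If squares of elements of `2`-power order are trivial, then `1` is equivalent only to itself. -/
theorem not_sim (hG : ∀ h : G, (∃ k : ℕ, orderOf h = 2 ^ k) → h ^ 2 = 1) {t : G} (ht : t ≠ 1) :
    ¬ Sim 2 2 1 t := by
  intro h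
  have key : ∀ g g' : G, Sim 2 2 g g' → (g = 1 ↔ g' = 1) := by
    intro g g' hgg
    induction hgg with
    | rel g g' h =>
      rcases h with ⟨x, rfl⟩ | ⟨h, -, hk, rfl⟩
      · constructor
        · rintro rfl; simp
        · intro h
          have : g = x⁻¹ * (x * g * x⁻¹) * x := by group
          rw [this, h]; simp
      · have : h ^ 2 ^ (2 - 1) = 1 := hG h hk
        rw [this, mul_one]
    | refl g => exact Iff.rfl
    | symm g g' _ ih => exact ih.symm
    | trans g g' g'' _ _ ih1 ih2 => exact ih1.trans ih2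
  exact ht ((key 1 t h).mp rfl)

theorem sq_of_four (hG : ∀ h : G, h ^ 4 = 1 → h ^ 2 = 1) (h : G) (hk : ∃ k : ℕ, orderOf h = 2 ^ k) :
    h ^ 2 = 1 := by
  obtain ⟨k, hk⟩ := hk
  have h1 : h ^ 2 ^ k = 1 := by rw [← hk, pow_orderOf_eq_one]
  clear hk
  induction k with
  | zero => rw [pow_zero, pow_one] at h1; rw [h1, one_pow]
  | succ k ih =>
    rcases k with _ | k
    · simpa using h1
    · apply ih
      have h2 : (h ^ 2 ^ k) ^ 4 = 1 := by
        rw [← pow_mul, ← h1]; congr 1; ring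
      have h3 := hG _ h2
      rw [← pow_mul] at h3
      rw [← h3]; congr 1

/-- The character congruence. -/
theorem congr_char (t s : G) (ht : t * t = 1) (hs : s * s = 1) (hts : t * s = s * t)
    (h1 : IsConj t s) (h2 : IsConj t (t * s)) {V : Type} [AddCommGroup V] [Module ℂ V]
    [FiniteDimensional ℂ V] (ρ : Representation ℂ G V) :
    ∃ z : ℤ, ρ.character 1 - ρ.character t = 4 * z := by
  have half : ∀ x : Module.End ℂ V, x * x = 1 →
      ((2 : ℂ)⁻¹ • (1 + x)) * ((2 : ℂ)⁻¹ • (1 + x)) = (2 : ℂ)⁻¹ • (1 + x) := by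
    intro x hx
    rw [smul_mul_smul_comm, mul_add, add_mul, add_mul, hx]
    simp only [one_mul, mul_one]
    have : (1 : Module.End ℂ V) + x + (x + 1) = (2 : ℂ) • (1 + x) := by
      rw [two_smul]; abel
    rw [this, smul_smul]
    norm_num
  have hx : ρ t * ρ t = 1 := by rw [← map_mul, ht, map_one]
  have hy : ρ s * ρ s = 1 := by rw [← map_mul, hs, map_one]
  have hxy : ρ t * ρ s = ρ s * ρ t := by rw [← map_mul, hts, map_mul]
  have e1 := half _ hx
  have e2 := half _ hy
  have hcomm : ((2 : ℂ)⁻¹ • (1 + ρ t)) * ((2 : ℂ)⁻¹ • (1 + ρ s)) =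
      ((2 : ℂ)⁻¹ • (1 + ρ s)) * ((2 : ℂ)⁻¹ • (1 + ρ t)) := by
    rw [smul_mul_smul_comm, smul_mul_smul_comm, mul_add, add_mul, add_mul, mul_add, add_mul,
      add_mul, hxy]
    congr 1
    simp only [one_mul, mul_one]
    abel
  have e3 : (((2 : ℂ)⁻¹ • (1 + ρ t)) * ((2 : ℂ)⁻¹ • (1 + ρ s))) *
      (((2 : ℂ)⁻¹ • (1 + ρ t)) * ((2 : ℂ)⁻¹ • (1 + ρ s))) =
      ((2 : ℂ)⁻¹ • (1 + ρ t)) * ((2 : ℂ)⁻¹ • (1 + ρ s)) := by
    calc _ = ((2 : ℂ)⁻¹ • (1 + ρ t)) * (((2 : ℂ)⁻¹ • (1 + ρ s)) *
          ((2 : ℂ)⁻¹ • (1 + ρ t))) * ((2 : ℂ)⁻¹ • (1 + ρ s)) := by simp only [mul_assoc]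
      _ = (((2 : ℂ)⁻¹ • (1 + ρ t)) * ((2 : ℂ)⁻¹ • (1 + ρ t))) *
          (((2 : ℂ)⁻¹ • (1 + ρ s)) * ((2 : ℂ)⁻¹ • (1 + ρ s))) := by
        rw [← hcomm]; simp only [mul_assoc]
      _ = _ := by rw [e1, e2]
  obtain ⟨m, hm⟩ := Pool.Agent.Q99.CT.trace_idem _ e3
  obtain ⟨l, hl⟩ := Pool.Agent.Q99.CT.trace_idem _ e1
  have c1 : ρ.character s = ρ.character t := by
    obtain ⟨c, hc⟩ := isConj_iff.mp h1
    rw [← hc]; exact ρ.char_conj t c
  have c2 : ρ.character (t * s) = ρ.character t := by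
    obtain ⟨c, hc⟩ := isConj_iff.mp h2
    rw [← hc]; exact ρ.char_conj t c
  have c3 : LinearMap.trace ℂ V (((2 : ℂ)⁻¹ • (1 + ρ t)) * ((2 : ℂ)⁻¹ • (1 + ρ s))) =
      (ρ.character 1 + 3 * ρ.character t) / 4 := by
    rw [smul_mul_smul_comm, mul_add, add_mul, add_mul, one_mul, mul_one, one_mul, ← map_mul,
      map_smul, map_add, map_add, map_add]
    have t1 : LinearMap.trace ℂ V (1 : Module.End ℂ V) = ρ.character 1 := by
      unfold Representation.character
      rw [map_one ρ]
    have t2 : LinearMap.trace ℂ V (ρ t) = ρ.character t := rfl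
    have t3 : LinearMap.trace ℂ V (ρ s) = ρ.character t := c1
    have t4 : LinearMap.trace ℂ V (ρ (t * s)) = ρ.character t := c2
    rw [t1, t2, t3, t4, smul_eq_mul]
    ring
  have c4 : LinearMap.trace ℂ V ((2 : ℂ)⁻¹ • (1 + ρ t)) =
      (ρ.character 1 + ρ.character t) / 2 := by
    rw [map_smul, map_add]
    have t1 : LinearMap.trace ℂ V (1 : Module.End ℂ V) = ρ.character 1 := by
      unfold Representation.character
      rw [map_one ρ]
    have t2 : LinearMap.trace ℂ V (ρ t) = ρ.character t := rfl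
    rw [t1, t2, smul_eq_mul]
    ring
  have hm' : (ρ.character 1 + 3 * ρ.character t) / 4 = m := by rw [← c3]; exact hm
  have hl' : (ρ.character 1 + ρ.character t) / 2 = l := by rw [← c4]; exact hl
  have hr : ρ.character 1 = (Module.finrank ℂ V : ℂ) := ρ.char_one
  refine ⟨(m : ℤ) - (2 * l - Module.finrank ℂ V : ℤ), ?_⟩
  push_cast
  rw [← hr, ← hm', ← hl']
  ring

end general

section psl

variable {F : Type} [Field F]

/-- The class of a matrix in the projective special linear group. -/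
def cl (A : SL(2, F)) : PSL(2, F) := QuotientGroup.mk A

theorem cl_mul (A B : SL(2, F)) : cl (A * B) = cl A * cl B := rfl

theorem cl_eq_one {A : SL(2, F)} : cl A = 1 ↔ A ∈ Subgroup.center SL(2, F) :=
  QuotientGroup.eq_one_iff A

theorem mem_center_of {A : SL(2, F)} {c : F} (h : A.1 = c • (1 : Matrix (Fin 2) (Fin 2) F)) :
    A ∈ Subgroup.center SL(2, F) := by
  rw [Matrix.SpecialLinearGroup.mem_center_iff]
  refine ⟨c, ?_, ?_⟩
  · have h1 := A.2
    rw [h, Matrix.det_smul, Matrix.det_one, mul_one] at h1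
    exact h1
  · rw [h]
    ext i j
    rw [Matrix.scalar_apply, Matrix.diagonal_apply, Matrix.smul_apply, Matrix.one_apply]
    split_ifs <;> simp

theorem center_cases {A : SL(2, F)} (h : A ∈ Subgroup.center SL(2, F)) :
    A.1 = 1 ∨ A.1 = -1 := by
  rw [Matrix.SpecialLinearGroup.mem_center_iff] at h
  obtain ⟨c, h1, h2⟩ := h
  rw [Fintype.card_fin] at h1
  have h3 : (c - 1) * (c + 1) = 0 := by linear_combination h1
  rcases mul_eq_zero.mp h3 with h4 | h4
  · left
    rw [← h2, sub_eq_zero.mp h4, map_one]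
  · right
    rw [← h2, eq_neg_of_add_eq_zero_left h4, map_neg, map_one]

/-- Cayley-Hamilton for matrices of determinant one. -/
theorem ch (A : Matrix (Fin 2) (Fin 2) F) (h : A.det = 1) :
    A * A = A.trace • A - 1 := by
  rw [Matrix.det_fin_two] at h
  ext i j
  fin_cases i <;> fin_cases j <;>
    simp [Matrix.mul_apply, Matrix.trace, Fin.sum_univ_two] <;>
    first | linear_combination -h | linear_combination 0 * h

theorem trace_sq (A : Matrix (Fin 2) (Fin 2) F) (h : A.det = 1) :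
    (A * A).trace = A.trace ^ 2 - 2 := by
  rw [ch A h, Matrix.trace_sub, Matrix.trace_smul, Matrix.trace_one, Fintype.card_fin]
  push_cast
  rw [smul_eq_mul]; ring

theorem no_order_four (h2 : (2 : F) ≠ 0) (hsq : ¬ IsSquare (2 : F)) (h : PSL(2, F))
    (h4 : h ^ 4 = 1) : h ^ 2 = 1 := by
  obtain ⟨A, rfl⟩ := QuotientGroup.mk_surjective h
  have e2 : (QuotientGroup.mk A : PSL(2, F)) ^ 2 = cl (A * A) := by rw [sq]; rfl
  have e4 : (QuotientGroup.mk A : PSL(2, F)) ^ 4 = cl ((A * A) * (A * A)) := by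
    have : (4 : ℕ) = 2 + 2 := rfl
    rw [this, pow_add, e2]; rfl
  rw [e4, cl_eq_one] at h4
  rw [e2, cl_eq_one]
  have hdet : (A.1 * A.1).det = 1 := (A * A).2
  have hch := ch (A.1 * A.1) hdet
  have htr := trace_sq A.1 A.2
  rcases center_cases h4 with h5 | h5
  · have h6 : (A.1 * A.1).trace • (A.1 * A.1) = (2 : F) • (1 : Matrix (Fin 2) (Fin 2) F) := by
      have h7 : A.1 * A.1 * (A.1 * A.1) = 1 := h5
      rw [h7] at hch
      rw [two_smul]
      rw [eq_sub_iff_add_eq] at hch
      exact hch.symm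
    have h8 : (A.1 * A.1).trace ≠ 0 := by
      intro h0
      rw [h0, zero_smul] at h6
      have := congrFun (congrFun h6 0) 0
      simp at this
      exact h2 this.symm
    apply mem_center_of (c := (A.1 * A.1).trace⁻¹ * 2)
    change A.1 * A.1 = _
    rw [mul_smul, ← h6, smul_smul, inv_mul_cancel₀ h8, one_smul]
  · exfalso
    have h6 : (A.1 * A.1).trace • (A.1 * A.1) = 0 := by
      have h7 : A.1 * A.1 * (A.1 * A.1) = -1 := h5
      rw [h7] at hch
      rw [eq_sub_iff_add_eq, neg_add_cancel] at hch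
      exact hch.symm
    rcases smul_eq_zero.mp h6 with h8 | h8
    · rw [htr] at h8
      apply hsq
      exact ⟨A.1.trace, by linear_combination -h8⟩
    · rw [h8] at hdet
      simp at hdet

/-- The matrix `J`. -/
def J : SL(2, F) := ⟨!![0, 1; -1, 0], by simp [Matrix.det_fin_two]⟩

/-- The matrix `K`. -/
def K (a b : F) (h : a ^ 2 + b ^ 2 = -1) : SL(2, F) :=
  ⟨!![a, b; b, -a], by simp [Matrix.det_fin_two]; linear_combination -h⟩

/-- The matrix of order `6` permuting the matrices `J`, `K`, `J K`. -/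
def P (a b : F) (h : a ^ 2 + b ^ 2 = -1) (h2 : (2 : F) ≠ 0) : SL(2, F) :=
  ⟨!![(1 + a + b) / 2, (1 + b - a) / 2; (-1 + b - a) / 2, (1 - a - b) / 2], by
    simp only [Matrix.det_fin_two, Matrix.of_apply, Matrix.cons_val', Matrix.cons_val_zero,
      Matrix.cons_val_one, Matrix.cons_val_fin_one]
    field_simp
    linear_combination -2 * h⟩

theorem P_J (a b : F) (h : a ^ 2 + b ^ 2 = -1) (h2 : (2 : F) ≠ 0) :
    P a b h h2 * J = K a b h * P a b h h2 := by
  apply Subtype.ext
  change (!![(1 + a + b) / 2, (1 + b - a) / 2; (-1 + b - a) / 2, (1 - a - b) / 2] :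
    Matrix (Fin 2) (Fin 2) F) * !![0, 1; -1, 0] = !![a, b; b, -a] *
    !![(1 + a + b) / 2, (1 + b - a) / 2; (-1 + b - a) / 2, (1 - a - b) / 2]
  ext i j
  fin_cases i <;> fin_cases j <;> simp [Matrix.mul_apply, Fin.sum_univ_two] <;> field_simp <;>
    first | linear_combination h | linear_combination -h

theorem P_K (a b : F) (h : a ^ 2 + b ^ 2 = -1) (h2 : (2 : F) ≠ 0) :
    P a b h h2 * K a b h = (J * K a b h) * P a b h h2 := by
  apply Subtype.ext
  change (!![(1 + a + b) / 2, (1 + b - a) / 2; (-1 + b - a) / 2, (1 - a - b) / 2] :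
    Matrix (Fin 2) (Fin 2) F) * !![a, b; b, -a] = (!![0, 1; -1, 0] * !![a, b; b, -a]) *
    !![(1 + a + b) / 2, (1 + b - a) / 2; (-1 + b - a) / 2, (1 - a - b) / 2]
  ext i j
  fin_cases i <;> fin_cases j <;> simp [Matrix.mul_apply, Fin.sum_univ_two] <;> field_simp <;>
    ring

theorem J_sq : (cl (J : SL(2, F))) * cl J = 1 := by
  rw [← cl_mul, cl_eq_one]
  apply mem_center_of (c := -1)
  change (!![0, 1; -1, 0] : Matrix (Fin 2) (Fin 2) F) * !![0, 1; -1, 0] = _
  ext i j
  fin_cases i <;> fin_cases j <;> simp [Matrix.mul_apply, Fin.sum_univ_two]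

theorem K_sq (a b : F) (h : a ^ 2 + b ^ 2 = -1) : (cl (K a b h)) * cl (K a b h) = 1 := by
  rw [← cl_mul, cl_eq_one]
  apply mem_center_of (c := -1)
  change (!![a, b; b, -a] : Matrix (Fin 2) (Fin 2) F) * !![a, b; b, -a] = _
  ext i j
  fin_cases i <;> fin_cases j <;> simp [Matrix.mul_apply, Fin.sum_univ_two]
  · linear_combination h
  · ring
  · ring
  · linear_combination h

theorem JK_comm (a b : F) (h : a ^ 2 + b ^ 2 = -1) :
    cl J * cl (K a b h) = cl (K a b h) * cl J := by
  have h1 : cl ((J * K a b h) * (K a b h * J)⁻¹) = 1 := by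
    rw [cl_eq_one]
    apply mem_center_of (c := -1)
    have h2 : (J * K a b h).1 = -(K a b h * J).1 := by
      change (!![0, 1; -1, 0] : Matrix (Fin 2) (Fin 2) F) * !![a, b; b, -a] =
        -(!![a, b; b, -a] * !![0, 1; -1, 0])
      ext i j
      fin_cases i <;> fin_cases j <;> simp [Matrix.mul_apply, Fin.sum_univ_two]
    change (J * K a b h).1 * ((K a b h * J)⁻¹).1 = _
    rw [h2, neg_mul, neg_smul, one_smul]
    congr 1
    change ((K a b h * J) * (K a b h * J)⁻¹).1 = 1
    rw [mul_inv_cancel]; rfl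
  rw [cl_mul] at h1
  have h3 : cl (K a b h * J)⁻¹ = (cl (K a b h * J))⁻¹ := rfl
  rw [h3, mul_inv_eq_one] at h1
  exact h1

theorem J_ne : cl (J : SL(2, F)) ≠ 1 := by
  rw [Ne, cl_eq_one]
  intro h
  have : (J : SL(2, F)).1 0 1 = 1 := rfl
  rcases center_cases h with h1 | h1
  · rw [h1] at this
    simp at this
  · rw [h1] at this
    simp at this

end psl

/-- Let `F` be a finite field with `|F|` congruent to `3` or `5` modulo `8` and `|F| > 5`, and let
`G` be the finite simple group `PSL(2, F)`, which is of Lie type of defining characteristic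
different from `2`. There is `t ∈ G` such that `χ(1) - χ(t)` is four times a (rational) integer for
every complex character `χ` of `G`, although `1` and `t` are not equivalent for the relation `∼_2` of
the prime `p = 2`. -/
theorem result (F : Type) [Field F] [Finite F] (hF : Nat.card F % 8 = 3 ∨ Nat.card F % 8 = 5)
    (hcard : 5 < Nat.card F) :
    IsSimpleGroup PSL(2, F) ∧ ringChar F ≠ 2 ∧ ∃ t : PSL(2, F),
      (∀ (V : Type) [AddCommGroup V] [Module ℂ V] [FiniteDimensional ℂ V]
        (ρ : Representation ℂ PSL(2, F) V),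
        ∃ z : ℤ, ρ.character 1 - ρ.character t = 2 ^ 2 * z) ∧ ¬ Sim 2 2 1 t := by
  classical
  letI : Fintype F := Fintype.ofFinite F
  have hc : ringChar F ≠ 2 := by
    intro h
    have := FiniteField.even_card_of_char_two h
    rw [← Nat.card_eq_fintype_card] at this
    omega
  have h2 : (2 : F) ≠ 0 := Ring.two_ne_zero hc
  have hsq : ¬ IsSquare (2 : F) := by
    rw [FiniteField.isSquare_two_iff, ← Nat.card_eq_fintype_card]
    omega
  refine ⟨Matrix.ProjectiveSpecialLinearGroup.rank_two_simple (by omega), hc, ?_⟩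
  obtain ⟨a, b, hab⟩ : ∃ a b : F, a ^ 2 + b ^ 2 = -1 := by
    obtain ⟨a, b, hab⟩ := FiniteField.exists_root_sum_quadratic
      (f := Polynomial.X ^ 2) (g := Polynomial.X ^ 2 + 1) (R := F)
      (by simp) (by
        have : (Polynomial.X ^ 2 + 1 : Polynomial F) = Polynomial.X ^ 2 + Polynomial.C 1 := by simp
        rw [this]
        exact Polynomial.degree_X_pow_add_C (by norm_num) 1)
      (by rw [← Nat.card_eq_fintype_card]; omega)
    refine ⟨a, b, ?_⟩
    simp at hab
    linear_combination hab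
  refine ⟨cl J, ?_, ?_⟩
  · intro V _ _ _ ρ
    have h1 : IsConj (cl (J : SL(2, F))) (cl (K a b hab)) := by
      refine isConj_iff.mpr ⟨cl (P a b hab h2), ?_⟩
      rw [mul_inv_eq_iff_eq_mul, ← cl_mul, ← cl_mul, P_J]
    have h3 : IsConj (cl (K a b hab)) (cl J * cl (K a b hab)) := by
      refine isConj_iff.mpr ⟨cl (P a b hab h2), ?_⟩
      rw [mul_inv_eq_iff_eq_mul, ← cl_mul, ← cl_mul, ← cl_mul, P_K]
    obtain ⟨z, hz⟩ := congr_char (cl J) (cl (K a b hab)) J_sq (K_sq a b hab) (JK_comm a b hab) h1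
      (h1.trans h3) ρ
    exact ⟨z, by rw [hz]; norm_num⟩
  · exact not_sim (sq_of_four (no_order_four h2 hsq)) J_ne

end Pool.Agent.Results.MP_cfb286_al.ProjectiveLine
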